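import Mathlib
import Pool.Agent.W593.IR.Stm3

/-!
# Chord inequalities for `k = 4`
-/

set_option autoImplicit false

namespace Pool.Agent.W367.IR

open Pool.Agent.W593.IR

lemma help {U H H' b a : ℝ} {m n : ℕ} (hU : 0 < U) (hUH : U ≤ H)
    (hch : (m : ℝ) * (1 - U / H) ^ n ≤ H) (hst : H ≤ H' + U) (hb : 0 ≤ b)
    (hp : a ≤ (m : ℝ) * (1 - U / H) ^ n * (U / H + b * (1 - U / H))) : a ≤ U + b * H' := by
  have hH : 0 < H := lt_of_lt_of_le hU hUH
  have hv0 : 0 < U / H := div_pos hU hH
  have hv1 : U / H ≤ 1 := (div_le_one hH).2 hUH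
  have h1 : 0 ≤ U / H + b * (1 - U / H) := by
    have := mul_nonneg hb (sub_nonneg.2 hv1)
    linarith
  have h2 := mul_le_mul_of_nonneg_right hch h1
  have h3 : H * (U / H + b * (1 - U / H)) = U + b * (H - U) := by
    field_simp
  have h4 : b * (H - U) ≤ b * H' := mul_le_mul_of_nonneg_left (by linarith) hb
  linarith

lemma chm {u H : ℕ → ℝ} (h : SQ 4 u H) {j : ℕ} (hj : j ≤ 4) (m : ℕ) (hjm : j ≤ m)
    (hU : 0 < u j) (hUH : u j ≤ H j) (hm : (m : ℝ) * (u j / H j) ≤ 1) :
    (m : ℝ) * (1 - u j / H j) ^ (m - j) ≤ H j := by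
  have hH : 0 < H j := lt_of_lt_of_le hU hUH
  have hg : (m : ℝ) ≤ H j / u j := by
    rw [le_div_iff₀ hU]
    rw [mul_div_assoc', div_le_one hH] at hm
    exact hm
  have hg1 : 1 ≤ H j / u j := by
    rw [le_div_iff₀ hU]
    linarith
  have := h.ch j hj m hjm (H j / u j) hg hg1 hU (by
    rw [div_mul_cancel₀ _ hU.ne'])
  rwa [one_div_div] at this

theorem chj4 : S_CHJ4 := by
  intro u H h
  have h11 : (1 : ℝ) ≤ H 1 := by
    have := h.h0 1 (by norm_num)
    simpa using this
  have h12 : H 1 ≤ 4 * u 1 := by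
    have := h.h1 1 (by norm_num)
    simpa using this
  have h21 : (2 : ℝ) ≤ H 2 := by
    have := h.h0 2 (by norm_num)
    simpa using this
  have h22 : H 2 ≤ 4 * u 2 := by
    have := h.h1 2 (by norm_num)
    simpa using this
  have hu1 : u 1 ≤ 1 := h.u1 1 (by norm_num)
  have hu2 : u 2 ≤ 1 := h.u1 2 (by norm_num)
  have hU1 : 0 < u 1 := by linarith
  have hU2 : 0 < u 2 := by linarith
  have hUH1 : u 1 ≤ H 1 := by linarith
  have hUH2 : u 2 ≤ H 2 := by linarith
  have hH1 : 0 < H 1 := by linarith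
  have hH2 : 0 < H 2 := by linarith
  have hst1 : H 1 ≤ H 0 + u 1 := by
    have := h.st 0 (by norm_num)
    simpa using this
  have hst2 : H 2 ≤ H 1 + u 2 := by
    have := h.st 1 (by norm_num)
    simpa using this
  have hv1 : 1 / 4 ≤ u 1 / H 1 := by
    rw [le_div_iff₀ hH1]
    linarith
  have hv1' : u 1 / H 1 ≤ 1 := (div_le_one hH1).2 hUH1
  have hv2 : 1 / 4 ≤ u 2 / H 2 := by
    rw [le_div_iff₀ hH2]
    linarith
  have hv2' : u 2 / H 2 ≤ 1 / 2 := by
    rw [div_le_iff₀ hH2]
    linarith
  refine ⟨?_, ?_, ?_⟩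
  · rcases le_total (1 / 2) (u 1 / H 1) with hc | hc
    · have hch := chm h (j := 1) (by norm_num) 1 le_rfl hU1 hUH1 (by simpa using hv1')
      refine help hU1 hUH1 hch hst1 (by norm_num) ?_
      generalize u 1 / H 1 = v at *
      norm_num
      linarith
    rcases le_total (1 / 3) (u 1 / H 1) with hc2 | hc2
    · have hch := chm h (j := 1) (by norm_num) 2 (by norm_num) hU1 hUH1 (by
        push_cast
        linarith)
      refine help hU1 hUH1 hch hst1 (by norm_num) ?_
      generalize u 1 / H 1 = v at *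
      norm_num
      nlinarith [mul_nonneg (sub_nonneg.2 hc) (sub_nonneg.2 hc2)]
    · have hch := chm h (j := 1) (by norm_num) 3 (by norm_num) hU1 hUH1 (by
        push_cast
        linarith)
      refine help hU1 hUH1 hch hst1 (by norm_num) ?_
      generalize u 1 / H 1 = v at *
      norm_num
      nlinarith [mul_nonneg (sub_nonneg.2 hv1) (sub_nonneg.2 hc2),
        mul_nonneg (mul_nonneg (sub_nonneg.2 hv1) (sub_nonneg.2 hc2)) (sub_nonneg.2 hv1')]
  · rcases le_total (1 / 2) (u 1 / H 1) with hc | hc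
    · have hch := chm h (j := 1) (by norm_num) 1 le_rfl hU1 hUH1 (by simpa using hv1')
      refine help hU1 hUH1 hch hst1 (by norm_num) ?_
      generalize u 1 / H 1 = v at *
      norm_num
      linarith
    rcases le_total (1 / 3) (u 1 / H 1) with hc2 | hc2
    · have hch := chm h (j := 1) (by norm_num) 2 (by norm_num) hU1 hUH1 (by
        push_cast
        linarith)
      refine help hU1 hUH1 hch hst1 (by norm_num) ?_
      generalize u 1 / H 1 = v at *
      norm_num
      nlinarith [mul_nonneg (sub_nonneg.2 hc) (sub_nonneg.2 hc2)]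
    · have hch := chm h (j := 1) (by norm_num) 3 (by norm_num) hU1 hUH1 (by
        push_cast
        linarith)
      refine help hU1 hUH1 hch hst1 (by norm_num) ?_
      generalize u 1 / H 1 = v at *
      norm_num
      nlinarith [mul_nonneg (sub_nonneg.2 hv1) (sub_nonneg.2 hc2),
        mul_nonneg (mul_nonneg (sub_nonneg.2 hv1) (sub_nonneg.2 hc2)) (sub_nonneg.2 hv1')]
  · rcases le_total (1 / 3) (u 2 / H 2) with hc2 | hc2
    · have hch := chm h (j := 2) (by norm_num) 2 (by norm_num) hU2 hUH2 (by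
        push_cast
        linarith)
      refine help hU2 hUH2 hch hst2 (by norm_num) ?_
      generalize u 2 / H 2 = v at *
      norm_num
      linarith
    · have hch := chm h (j := 2) (by norm_num) 3 (by norm_num) hU2 hUH2 (by
        push_cast
        linarith)
      refine help hU2 hUH2 hch hst2 (by norm_num) ?_
      generalize u 2 / H 2 = v at *
      norm_num
      nlinarith [mul_nonneg (sub_nonneg.2 hv2) (sub_nonneg.2 hc2)]

end Pool.Agent.W367.IR
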